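import Pool.Agent.H24.DB.Seq
set_option autoImplicit false

namespace Pool.Agent.Results.MP_0f71ae_nt.DoublingAndEnergy

open Finset Filter
open scoped Pointwise

universe u

/-- `S` contains no progression `a, a + d, ..., a + (k - 1) d` with `d ≠ 0`. -/
def NoAP {G : Type*} [AddCommGroup G] (k : ℕ) (S : Finset G) : Prop :=
  ∀ a d : G, d ≠ 0 → ¬ ∀ i < k, a + i • d ∈ S

open Classical in
/-- `r k N` is the largest size of a subset of `{1, ..., N}` without progressions
`a, a + d, ..., a + (k - 1) d`, `d ≥ 1`; so `r 3 N` is the function of the question. -/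
noncomputable def r (k N : ℕ) : ℕ :=
  ((Icc 1 N).powerset.filter
    (fun A : Finset ℕ => ∀ a d : ℕ, 1 ≤ d → ¬ ∀ i < k, a + i * d ∈ A)).sup card

/-- the smallest size of `A + A` for the sets `A` of `n` integers without progressions of length
`k` -/
noncomputable def minSum (k n : ℕ) : ℕ :=
  sInf {m | ∃ A : Finset ℤ, A.card = n ∧ NoAP k A ∧ (A + A).card = m}

/-- the largest additive energy of the sets `A` of `n` integers without progressions of length `k`;
the energy is the number of solutions of `a + b = c + d` in `A` -/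
noncomputable def maxEnergy (k n : ℕ) : ℕ :=
  sSup {m | ∃ A : Finset ℤ, A.card = n ∧ NoAP k A ∧ A.addEnergy A = m}

/-- `x n ≤ (log n) ^ (γ + o(1))` -/
def Up (x : ℕ → ℝ) (γ : ℝ) : Prop :=
  ∀ ε : ℝ, 0 < ε → ∀ᶠ n : ℕ in atTop, x n ≤ Real.log n ^ (γ + ε)

/-- `x n ≥ (log n) ^ (γ - o(1))` -/
def Lo (x : ℕ → ℝ) (γ : ℝ) : Prop :=
  ∀ ε : ℝ, 0 < ε → ∀ᶠ n : ℕ in atTop, Real.log n ^ (γ - ε) ≤ x n

/-- **Doubling and energy of progression-free sets.** Let `k ≥ 3`.
(1) Let `A` be a finite nonempty set in a torsion-free abelian group with `|A + A| ≤ K |A|`. Every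
subset of `A` without progressions of length `k` has at most `(2K)^(18000 (1 + log (1 + log 2K)))`
times `r k |A|` elements.
(2) If `A` itself has no progressions of length `k` and additive energy at least `|A|³ / K`, `K ≥ 1`,
then `|A| ≤ (2K)^(10⁷ (1 + log (1 + log 2K))) r k |A|`.
(3) Conversely, for each `n ≥ 1` there is a set `A` of `n` integers without progressions of length
`k` with `|A + A| ≤ 18 e¹⁶ (n / r k n)² n` and energy at least `n³ / (18 e¹⁶ (n / r k n)²)`.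
(4) So `log (n / r k n)`, `log (minSum k n / n)` and `log (n³ / maxEnergy k n)` have the same
exponents: for `γ ≥ 0` either all three are at most `(log n)^(γ + o(1))` or none is, and for `γ > 0`
either all three are at least `(log n)^(γ - o(1))` or none is. -/
theorem result (k : ℕ) (hk : 3 ≤ k) :
    -- (1)
    (∀ (G : Type u) [AddCommGroup G] [IsAddTorsionFree G] [DecidableEq G] (K : ℝ)
      (A S : Finset G), A.Nonempty → ((A + A).card : ℝ) ≤ K * A.card → S ⊆ A → NoAP k S →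
      (S.card : ℝ) ≤ (2 * K) ^ (18000 * (1 + Real.log (1 + Real.log (2 * K)))) * r k A.card) ∧
    -- (2)
    (∀ (G : Type u) [AddCommGroup G] [IsAddTorsionFree G] [DecidableEq G] (K : ℝ)
      (A : Finset G), 1 ≤ K → A.Nonempty → (A.card : ℝ) ^ 3 ≤ K * (A.addEnergy A : ℕ) → NoAP k A →
      (A.card : ℝ) ≤ (2 * K) ^ (10000000 * (1 + Real.log (1 + Real.log (2 * K)))) *
        r k A.card) ∧
    -- (3)
    (∀ n : ℕ, 1 ≤ n → ∃ A : Finset ℤ, A.card = n ∧ NoAP k A ∧
      ((A + A).card : ℝ) ≤ 18 * Real.exp 16 * ((n : ℝ) / r k n) ^ 2 * n ∧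
      (n : ℝ) ^ 3 ≤ 18 * Real.exp 16 * ((n : ℝ) / r k n) ^ 2 * (A.addEnergy A : ℕ)) ∧
    -- (4)
    (∀ γ : ℝ, 0 ≤ γ →
      (Up (fun n => Real.log ((n : ℝ) / r k n)) γ ↔
        Up (fun n => Real.log ((minSum k n : ℝ) / n)) γ) ∧
      (Up (fun n => Real.log ((n : ℝ) / r k n)) γ ↔
        Up (fun n => Real.log ((n : ℝ) ^ 3 / maxEnergy k n)) γ)) ∧
    (∀ γ : ℝ, 0 < γ →
      (Lo (fun n => Real.log ((n : ℝ) / r k n)) γ ↔
        Lo (fun n => Real.log ((minSum k n : ℝ) / n)) γ) ∧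
      (Lo (fun n => Real.log ((n : ℝ) / r k n)) γ ↔
        Lo (fun n => Real.log ((n : ℝ) ^ 3 / maxEnergy k n)) γ)) := by
  have htf : ∀ (G : Type u) [AddCommGroup G] [IsAddTorsionFree G] (n : ℕ) (x : G), n ≠ 0 →
      n • x = 0 → x = 0 := by
    intro G _ _ n x hn h
    exact nsmul_right_injective hn (by simpa using h)
  have hD := H24.DB.exps (x := H24.DB.LR k) (y := H24.DB.LD k) (c := 18000) (by norm_num)
    (fun n hn => (H24.DB.ineqs hk hn).2.1)
    (fun n hn => by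
      have := (H24.DB.ineqs hk hn).2.2.2.2.1
      have h0 := (H24.DB.ineqs hk hn).1
      linarith)
    (fun n hn => (H24.DB.ineqs hk hn).2.2.2.2.2.1)
  have hE := H24.DB.exps (x := H24.DB.LR k) (y := H24.DB.LE k) (c := 10000000) (by norm_num)
    (fun n hn => (H24.DB.ineqs hk hn).2.2.1)
    (fun n hn => by
      have h1 := (H24.DB.ineqs hk hn).2.2.2.2.1
      have h2 := (H24.DB.ineqs hk hn).2.2.2.1
      have h0 := (H24.DB.ineqs hk hn).1
      linarith)
    (fun n hn => (H24.DB.ineqs hk hn).2.2.2.2.2.2)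
  refine ⟨?_, ?_, ?_, fun γ hγ => ⟨hD.1 γ hγ, hE.1 γ hγ⟩, fun γ hγ => ⟨hD.2 γ hγ, hE.2 γ hγ⟩⟩
  · intro G _ _ _ K A S hA hK hSA hS
    exact H24.DB.rel (htf G) hk hA hK hSA hS
  · intro G _ _ _ K A hK1 hA hE hAF
    exact H24.DB.energy (htf G) hk hK1 hA hE hAF
  · intro n hn
    obtain ⟨A, hAc, hAF, hA⟩ := H24.DB.exists_small hk hn
    refine ⟨A, hAc, hAF, hA, ?_⟩
    have hn' : (0 : ℝ) < n := by exact_mod_cast hn
    have h1 := Finset.le_card_add_mul_addEnergy A A
    have h2 : (n : ℝ) ^ 2 * n ^ 2 ≤ (A + A).card * (A.addEnergy A : ℕ) := by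
      rw [hAc] at h1
      exact_mod_cast h1
    have h3 : (n : ℝ) * n ^ 3 ≤ n * (18 * Real.exp 16 * ((n : ℝ) / r k n) ^ 2 *
        (A.addEnergy A : ℕ)) := by
      calc (n : ℝ) * n ^ 3 = (n : ℝ) ^ 2 * n ^ 2 := by ring
        _ ≤ ((A + A).card : ℝ) * (A.addEnergy A : ℕ) := h2
        _ ≤ (18 * Real.exp 16 * ((n : ℝ) / r k n) ^ 2 * n) * (A.addEnergy A : ℕ) :=
            mul_le_mul_of_nonneg_right hA (Nat.cast_nonneg _)
        _ = _ := by ring
    exact le_of_mul_le_mul_left h3 hn'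

end Pool.Agent.Results.MP_0f71ae_nt.DoublingAndEnergy
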